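import Pool.Agent.W682.BQ.Stm
import Pool.Agent.W308.IW.Bnd

/-! Project BQ: the numerical facts of the certificate. -/

set_option autoImplicit false

namespace Pool.Agent.W154.BQ.Bndb

open MeasureTheory Set Filter Topology
open Pool.Agent.W488.IW Pool.Agent.W488.IX Pool.Agent.W682.BQ
open Pool.Agent.W360.BQ (Cf Vg QCF S_FLOWF S_NULLF)
open Pool.Agent.W308.IW.Bnd

section prim

variable {κ : ℝ → ℝ} {L : ℝ}

theorem om_le (h : HK κ L) {s : ℝ} (hs : 0 ≤ s) : om κ s ≤ s * om1 κ s := by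
  unfold om
  have h1 : ∫ u in (0 : ℝ)..s, om1 κ u ≤ ∫ _u in (0 : ℝ)..s, (om1 κ s) :=
    intervalIntegral.integral_mono_on hs (h.om1_cont.intervalIntegrable 0 s) (by simp)
      fun u hu => h.om1_mono hu.2
  rw [intervalIntegral.integral_const, smul_eq_mul, sub_zero] at h1
  exact h1

theorem om1_two (h : HK κ L) {s : ℝ} (hs : 2 ≤ s) : om1 κ s = om1 κ 2 := by
  have h3 := h.om1_sub 2 s
  have h4 : ∫ u in (2 : ℝ)..s, κ u = ∫ u in (2 : ℝ)..s, (0 : ℝ) := by
    apply intervalIntegral.integral_congr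
    intro t ht
    rw [uIcc_of_le hs] at ht
    exact h.high t ht.1
  rw [h4, intervalIntegral.integral_zero] at h3
  linarith

theorem om_two (h : HK κ L) {s : ℝ} (hs : 2 ≤ s) : om κ s = om κ 2 + om1 κ 2 * (s - 2) := by
  have h3 := h.om_sub 2 s
  have h4 : ∫ u in (2 : ℝ)..s, om1 κ u = ∫ _u in (2 : ℝ)..s, (om1 κ 2) := by
    apply intervalIntegral.integral_congr
    intro t ht
    rw [uIcc_of_le hs] at ht
    exact om1_two h ht.1
  rw [h4, intervalIntegral.integral_const, smul_eq_mul] at h3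
  linarith

theorem om1_lower (h : HK κ L) {s t m : ℝ} (hst : s ≤ t) (hm : ∀ u ∈ Icc s t, m ≤ κ u) :
    m * (t - s) ≤ om1 κ t - om1 κ s := by
  rw [h.om1_sub]
  have h1 : ∫ _u in s..t, m ≤ ∫ u in s..t, κ u :=
    intervalIntegral.integral_mono_on hst (by simp) (h.ii s t) hm
  rw [intervalIntegral.integral_const, smul_eq_mul] at h1
  linarith

theorem om1_upper (h : HK κ L) {s t m : ℝ} (hst : s ≤ t) (hm : ∀ u ∈ Icc s t, κ u ≤ m) :
    om1 κ t - om1 κ s ≤ m * (t - s) := by
  rw [h.om1_sub]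
  have h1 : ∫ u in s..t, κ u ≤ ∫ _u in s..t, m :=
    intervalIntegral.integral_mono_on hst (h.ii s t) (by simp) hm
  rw [intervalIntegral.integral_const, smul_eq_mul] at h1
  linarith

theorem om_lower (h : HK κ L) {s t : ℝ} (hst : s ≤ t) :
    om1 κ s * (t - s) ≤ om κ t - om κ s := by
  rw [h.om_sub]
  have h1 : ∫ _u in s..t, (om1 κ s) ≤ ∫ u in s..t, om1 κ u :=
    intervalIntegral.integral_mono_on hst (by simp) (h.om1_cont.intervalIntegrable s t)
      fun u hu => h.om1_mono hu.1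
  rw [intervalIntegral.integral_const, smul_eq_mul] at h1
  linarith

/-- the square of `κ` is bounded by its primitive -/
theorem sq_le (h : HK κ L) (s : ℝ) : κ s ^ 2 ≤ 4 * L * om1 κ s := by
  have hL : 0 < L := by linarith [h.one]
  have hk := h.nonneg s
  have h1 : κ s / (2 * L) ≥ 0 := by positivity
  have h2 : ∀ u ∈ Icc (s - κ s / (2 * L)) s, κ s / 2 ≤ κ u := by
    intro u hu
    have h3 := h.lip s u
    rw [abs_of_nonneg (by linarith [hu.2] : (0 : ℝ) ≤ s - u)] at h3
    have h4 : s - u ≤ κ s / (2 * L) := by linarith [hu.1]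
    have h5 : L * (s - u) ≤ L * (κ s / (2 * L)) := mul_le_mul_of_nonneg_left h4 hL.le
    have h6 : L * (κ s / (2 * L)) = κ s / 2 := by field_simp
    have h7 := (abs_le.1 h3).2
    linarith
  have h8 := om1_lower h (show s - κ s / (2 * L) ≤ s by linarith) h2
  have h9 := h.om1_nonneg (s - κ s / (2 * L))
  have h10 : κ s / 2 * (s - (s - κ s / (2 * L))) = κ s ^ 2 / (4 * L) := by
    field_simp
    ring
  rw [h10] at h8
  have h11 : κ s ^ 2 / (4 * L) ≤ om1 κ s := by linarith
  rw [div_le_iff₀ (by positivity)] at h11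
  linarith

/-- `om1 ^ (3/2)` is bounded by `om` -/
theorem cube_le (h : HK κ L) {s : ℝ} (hs : 0 ≤ s) :
    Real.sqrt (om1 κ s) ^ 3 ≤ 8 * L * om κ s := by
  have hL : 0 < L := by linarith [h.one]
  have hu := h.om1_nonneg s
  set v := Real.sqrt (om1 κ s) with hv
  have hv2 : v ^ 2 = om1 κ s := Real.sq_sqrt hu
  have hv0 : 0 ≤ v := Real.sqrt_nonneg _
  rcases hv0.eq_or_lt with h0 | h0
  · rw [← h0]
    have := h.om_nonneg hs
    simp only [ne_eq, OfNat.ofNat_ne_zero, not_false_eq_true, zero_pow]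
    positivity
  -- `κ ≤ 2 L v` below `s`
  have hk : ∀ u, u ≤ s → κ u ≤ 2 * L * v := by
    intro u hus
    have h1 := sq_le h u
    have h2 := h.om1_mono hus
    have h3 : κ u ^ 2 ≤ (2 * L * v) ^ 2 := by
      calc κ u ^ 2 ≤ 4 * L * om1 κ u := h1
        _ ≤ 4 * L * om1 κ s := mul_le_mul_of_nonneg_left h2 (by positivity)
        _ = 4 * L * v ^ 2 := by rw [hv2]
        _ ≤ 4 * L * v ^ 2 * L := le_mul_of_one_le_right (by positivity) h.one
        _ = (2 * L * v) ^ 2 := by ring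
    exact le_of_sq_le_sq h3 (by positivity)
  set t0 := v / (4 * L) with ht0
  have ht0' : 0 < t0 := by positivity
  have h4 := om1_upper h (show s - t0 ≤ s by linarith) (fun u hu => hk u hu.2)
  have h5 : 2 * L * v * (s - (s - t0)) = v ^ 2 / 2 := by
    rw [ht0]; field_simp; ring
  rw [h5, ← hv2] at h4
  have h6 : v ^ 2 / 2 ≤ om1 κ (s - t0) := by linarith
  have h7 : 0 ≤ s - t0 := by
    by_contra hc
    push Not at hc
    rw [h.om1_zero (by linarith)] at h6
    have : 0 < v ^ 2 / 2 := by positivity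
    linarith
  have h8 := om_lower h (show s - t0 ≤ s by linarith)
  have h9 := h.om_nonneg h7
  have h10 : v ^ 2 / 2 * t0 ≤ om κ s := by
    have : v ^ 2 / 2 * t0 ≤ om1 κ (s - t0) * t0 := mul_le_mul_of_nonneg_right h6 ht0'.le
    have h11 : om1 κ (s - t0) * (s - (s - t0)) = om1 κ (s - t0) * t0 := by ring
    linarith
  have h12 : v ^ 2 / 2 * t0 = v ^ 3 / (8 * L) := by
    rw [ht0]; field_simp; ring
  rw [h12, div_le_iff₀ (by positivity)] at h10
  linarith

variable {l : ℝ → ℝ} {η : ℝ}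

theorem JJ_zero (hl : Cut η l) {x : ℝ} (h0 : 0 ≤ x) (hx : x ≤ 2) : JJ l x = 0 := by
  unfold JJ
  have : ∫ s in (0 : ℝ)..x, (1 - l s) = ∫ s in (0 : ℝ)..x, (0 : ℝ) := by
    apply intervalIntegral.integral_congr
    intro s hs
    rw [uIcc_of_le h0] at hs
    simp only
    rw [hl.one s (hs.2.trans hx), sub_self]
  rw [this, intervalIntegral.integral_zero]

theorem JJ_le (hl : Cut η l) {x : ℝ} (hx : 2 ≤ x) : JJ l x ≤ x - 2 := by
  have hc : Continuous l := hl.c1.continuous
  have hi : ∀ a b : ℝ, IntervalIntegrable (fun t => 1 - l t) volume a b := fun a b =>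
    (by fun_prop : Continuous fun t => 1 - l t).intervalIntegrable a b
  have h1 : JJ l x - JJ l 2 = ∫ t in (2 : ℝ)..x, (1 - l t) := by
    unfold JJ
    exact intervalIntegral.integral_interval_sub_left (hi 0 x) (hi 0 2)
  rw [JJ_zero hl (by norm_num) le_rfl, sub_zero] at h1
  rw [h1]
  have h2 : ∫ u in (2 : ℝ)..x, (1 - l u) ≤ ∫ _u in (2 : ℝ)..x, (1 : ℝ) :=
    intervalIntegral.integral_mono_on hx (hi _ _) (by simp) fun u _ => by linarith [hl.nn u]
  rw [intervalIntegral.integral_const, smul_eq_mul, mul_one] at h2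
  exact h2

/-- lower bound of the corrected `ω` -/
theorem Omc_ge (h : HK κ L) (hl : Cut η l) {X Y : ℝ} (hX : 0 < X) (hY : 0 < Y) :
    om κ (min (X + Y) 2) ≤ Omc κ l X Y := by
  unfold Omc
  have hm := h.om1_nonneg 2
  rcases le_total (X + Y) 2 with h1 | h1
  · rw [min_eq_left h1, JJ_zero hl hX.le (by linarith)]
    simp
  · rw [min_eq_right h1, om_two h h1]
    have h2 : JJ l X ≤ X + Y - 2 := by
      rcases le_total X 2 with h2 | h2
      · rw [JJ_zero hl hX.le h2]; linarith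
      · linarith [JJ_le hl h2]
    have h3 := mul_le_mul_of_nonneg_left h2 hm
    linarith

theorem Omc_nonneg (h : HK κ L) (hl : Cut η l) {X Y : ℝ} (hX : 0 < X) (hY : 0 < Y) :
    0 ≤ Omc κ l X Y :=
  (h.om_nonneg (le_min (by positivity) (by norm_num))).trans (Omc_ge h hl hX hY)

theorem Omc_eq (_h : HK κ L) (hl : Cut η l) {X Y : ℝ} (hX : 0 < X) (hY : 0 < Y)
    (hS : X + Y ≤ 2) : Omc κ l X Y = om κ (X + Y) := by
  unfold Omc
  rw [JJ_zero hl hX.le (by linarith)]
  simp

end prim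

theorem main : S_BNDB := by
  intro κ hκ
  obtain ⟨L, h⟩ := HK.of hκ.bump
  have hL := h.one
  have hL0 : 0 < L := by linarith
  have hLL : L ≤ L ^ 2 := by nlinarith
  refine ⟨65536 * L ^ 2, by nlinarith, ?_⟩
  intro δ0 C hδ0 hδ1 hC
  refine ⟨min 1 (min (δ0 / (2 * C)) (δ0 ^ 2 / (4 * C ^ 3))), by positivity, min_le_left _ _, ?_⟩
  intro ε hε hεlt l hl x y hx hy X Y hX hY
  have hε1 : ε < 1 := lt_of_lt_of_le hεlt (min_le_left _ _)
  have hε2 : ε < δ0 / (2 * C) :=
    lt_of_lt_of_le hεlt ((min_le_right _ _).trans (min_le_left _ _))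
  have hε3 : ε < δ0 ^ 2 / (4 * C ^ 3) :=
    lt_of_lt_of_le hεlt ((min_le_right _ _).trans (min_le_right _ _))
  have hX2 : X ^ 2 = x ^ 2 + ε ^ 2 := by rw [hX, Real.sq_sqrt (by positivity)]
  have hY2 : Y ^ 2 = y ^ 2 + ε ^ 2 := by rw [hY, Real.sq_sqrt (by positivity)]
  have hX0 : 0 < X := by rw [hX]; positivity
  have hY0 : 0 < Y := by rw [hY]; positivity
  have hXε : ε ≤ X := by rw [hX]; exact Real.le_sqrt_of_sq_le (by linarith [sq_nonneg x])
  have hYε : ε ≤ Y := by rw [hY]; exact Real.le_sqrt_of_sq_le (by linarith [sq_nonneg y])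
  have hXx : x ≤ X := by rw [hX]; exact Real.le_sqrt_of_sq_le (by linarith [sq_nonneg ε])
  have hYy : y < Y := by
    rw [hY]
    exact Real.lt_sqrt_of_sq_lt (by linarith [pow_pos hε 2])
  have hA0 : 0 ≤ x / X := by positivity
  have hA1 : x / X ≤ 1 := by rw [div_le_one hX0]; exact hXx
  have hT0 : 0 ≤ y / Y := by positivity
  have hT1 : y / Y < 1 := by rw [div_lt_one hY0]; exact hYy
  have hA2 : 1 - (x / X) ^ 2 = ε ^ 2 / X ^ 2 := by
    rw [div_pow]
    field_simp
    linarith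
  have hT2 : 1 - (y / Y) ^ 2 = ε ^ 2 / Y ^ 2 := by
    rw [div_pow]
    field_simp
    linarith
  generalize x / X = A at hA0 hA1 hA2 ⊢
  generalize y / Y = T at hT0 hT1 hT2 ⊢
  clear hXx hYy hX2 hY2 hX hY hx hy
  have hA3 : 1 - A ≤ ε ^ 2 / X ^ 2 := by
    rw [← hA2]
    linarith [mul_le_of_le_one_right hA0 hA1, sq A]
  have hS0 : 0 < X + Y := by linarith
  have hk0 := h.nonneg (X + Y)
  have hk1 := h.ub (X + Y)
  have ho0 := h.om1_nonneg (X + Y)
  have ho1 := h.om1_ub (X + Y)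
  have hOm := Omc_nonneg h hl hX0 hY0
  have ha1 : ε ^ 2 / Y ^ 2 ≤ 1 := by
    rw [div_le_one (by positivity)]
    exact pow_le_pow_left₀ hε.le hYε 2
  have ha0 : 0 < ε ^ 2 / Y ^ 2 := by positivity
  -- nonzero `κ`
  have hκS : κ (X + Y) ≠ 0 → 1 / 2 < X + Y ∧ X + Y < 2 := by
    intro h1
    constructor
    · by_contra hc
      exact h1 (h.low _ (by linarith))
    · by_contra hc
      exact h1 (h.high _ (by linarith))
  have hρ0 : 0 ≤ X * κ (X + Y) / (X + Y) := by positivity
  have hρk : X * κ (X + Y) / (X + Y) ≤ κ (X + Y) := by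
    rw [div_le_iff₀ hS0]
    linarith [mul_nonneg hk0 hY0.le]
  have hρX : X * κ (X + Y) / (X + Y) ≤ 4 * L * X := by
    rw [div_le_iff₀ hS0]
    rcases eq_or_ne (κ (X + Y)) 0 with h1 | h1
    · rw [h1]
      have : 0 ≤ 4 * L * X * (X + Y) := by positivity
      linarith
    · have h2 := (hκS h1).1
      calc X * κ (X + Y) ≤ X * (2 * L) := mul_le_mul_of_nonneg_left hk1 hX0.le
        _ = 4 * L * X * (1 / 2) := by ring
        _ ≤ 4 * L * X * (X + Y) := mul_le_mul_of_nonneg_left h2.le (by positivity)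
  have hn0 : 0 ≤ n1B κ l ε X Y := by
    unfold n1B
    positivity
  have hA4 : 0 ≤ 1 - A := by linarith
  -- the bound A1
  have hA1' : (1 - A) * (X * κ (X + Y) / (X + Y)) ≤ 4 * L * ε := by
    calc (1 - A) * (X * κ (X + Y) / (X + Y)) ≤ (ε ^ 2 / X ^ 2) * (4 * L * X) :=
          mul_le_mul hA3 hρX hρ0 (by positivity)
      _ = 4 * L * ε * (ε / X) := by field_simp
      _ ≤ 4 * L * ε * 1 :=
          mul_le_mul_of_nonneg_left ((div_le_one hX0).mpr hXε) (by positivity)
      _ = 4 * L * ε := mul_one _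
  have hX16 : 1 / 4 ≤ X → 1 - A ≤ 16 * ε ^ 2 := by
    intro h1
    refine hA3.trans ?_
    rw [div_le_iff₀ (by positivity)]
    have : 1 / 16 ≤ X ^ 2 := by
      have := mul_le_mul h1 h1 (by norm_num) hX0.le
      linarith [sq X]
    linarith [mul_le_mul_of_nonneg_left this (sq_nonneg ε)]
  have hY16 : 1 / 4 ≤ Y → ε ^ 2 / Y ^ 2 ≤ 16 * ε ^ 2 := by
    intro h1
    rw [div_le_iff₀ (by positivity)]
    have : 1 / 16 ≤ Y ^ 2 := by
      have := mul_le_mul h1 h1 (by norm_num) hY0.le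
      linarith [sq Y]
    linarith [mul_le_mul_of_nonneg_left this (sq_nonneg ε)]
  have hεε : ε ^ 2 ≤ ε := by
    have := mul_le_mul_of_nonneg_left hε1.le hε.le
    linarith [sq ε]
  have hLε : L * ε ≤ L ^ 2 * ε := mul_le_mul_of_nonneg_right hLL hε.le
  have hLε0 : 0 ≤ L * ε := by positivity
  have hKK : 4096 * (L * ε) ≤ 65536 * L ^ 2 * ε := by linarith
  refine ⟨⟨hA0, hA1⟩, ⟨hT0, hT1⟩, ⟨hl.nn _, hl.le _⟩, ?_, ?_, ⟨hk0, by linarith⟩,
    ⟨hρ0, hρk⟩, by positivity, by positivity, by positivity, hn0, ?_, ?_, ?_, ?_,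
    ⟨by positivity, ?_⟩, ?_, ?_, ?_, ?_, ?_⟩
  · -- hl1
    rw [abs_mul, abs_of_nonneg ho0]
    calc |deriv l X| * om1 κ (X + Y) ≤ ε * (4 * L) :=
          mul_le_mul (hl.der X) ho1 ho0 hε.le
      _ ≤ 65536 * L ^ 2 * ε := by linarith
  · -- dj
    rcases le_total X 2 with h1 | h1
    · exact Or.inl (hl.one X h1)
    · right
      have h2 : κ (X + Y) = 0 := h.high _ (by linarith)
      rw [h2]
      simp
  · -- n1e
    have h1 : om1 κ (X + Y) * (Omc κ l X Y / om1 κ (X + Y)) = Omc κ l X Y := by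
      rcases eq_or_ne (om1 κ (X + Y)) 0 with h2 | h2
      · have h3 : X + Y ≤ 2 := by
          by_contra hc
          push Not at hc
          rw [om1_two h hc.le] at h2
          exact absurd h2 hκ.pos.ne'
        have h4 : om κ (X + Y) ≤ 0 := by
          have := om_le h hS0.le
          rw [h2, mul_zero] at this
          exact this
        have h5 : Omc κ l X Y = 0 := by
          rw [Omc_eq h hl hX0 hY0 h3]
          exact le_antisymm h4 (h.om_nonneg hS0.le)
        rw [h5]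
        simp
      · field_simp
    have h2 : 2 - T ^ 2 = (Y ^ 2 + ε ^ 2) / Y ^ 2 := by
      have : 2 - T ^ 2 = 1 + (1 - T ^ 2) := by ring
      rw [this, hT2]
      field_simp
    rw [h2, hT2]
    unfold n1B
    generalize Omc κ l X Y / om1 κ (X + Y) = q at h1 ⊢
    rw [← h1]
    field_simp
  · -- lc
    rcases eq_or_ne (κ (X + Y)) 0 with h1 | h1
    · rw [h1]
      have : 0 ≤ 2 / 3 * (om1 κ (X + Y) / Y) ^ 2 := by positivity
      simpa using this
    · have h2 := hκS h1
      have h3 := Omc_eq h hl hX0 hY0 h2.2.le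
      rw [h3] at hOm ⊢
      calc X * κ (X + Y) / (X + Y) * (om κ (X + Y) / Y ^ 2)
          ≤ κ (X + Y) * (om κ (X + Y) / Y ^ 2) :=
            mul_le_mul_of_nonneg_right hρk (by positivity)
        _ = (κ (X + Y) * om κ (X + Y)) / Y ^ 2 := by ring
        _ ≤ (2 / 3 * om1 κ (X + Y) ^ 2) / Y ^ 2 :=
            div_le_div_of_nonneg_right (hκ.lc _) (by positivity)
        _ = 2 / 3 * (om1 κ (X + Y) / Y) ^ 2 := by ring
  · -- kk
    rw [hT2]
    calc ε ^ 2 / Y ^ 2 * κ (X + Y) ^ 2 ≤ ε ^ 2 / Y ^ 2 * (4 * L * om1 κ (X + Y)) :=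
          mul_le_mul_of_nonneg_left (sq_le h _) ha0.le
      _ = 4 * L * ε * (om1 κ (X + Y) / Y) * (ε / Y) := by field_simp
      _ ≤ 4 * L * ε * (om1 κ (X + Y) / Y) * 1 :=
          mul_le_mul_of_nonneg_left ((div_le_one hY0).mpr hYε) (by positivity)
      _ = 4 * (L * ε) * (om1 κ (X + Y) / Y) := by ring
      _ ≤ 65536 * L ^ 2 * ε * (om1 κ (X + Y) / Y) :=
          mul_le_mul_of_nonneg_right (by linarith) (by positivity)
  · -- xx
    rw [hT2]
    rcases eq_or_lt_of_le ho0 with h1 | h1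
    · rw [← h1]
      have : 0 ≤ 1 / 4 * ((ε ^ 2 / Y ^ 2) ^ 2 * (Omc κ l X Y / Y ^ 2)) + 65536 * L ^ 2 * ε := by
        positivity
      simpa using this
    have hS : 1 / 2 < X + Y := by
      by_contra hc
      rw [h.om1_zero (by linarith)] at h1
      exact lt_irrefl _ h1
    have hp : 0 ≤ 1 / 4 * ((ε ^ 2 / Y ^ 2) ^ 2 * (Omc κ l X Y / Y ^ 2)) := by positivity
    rcases lt_or_ge X (1 / 4) with h2 | h2
    · have h3 := hY16 (by linarith)
      have h4 : om1 κ (X + Y) / X ≤ 4 * L / ε := by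
        exact div_le_div₀ (by positivity) ho1 hε hXε
      have h5 : ε ^ 2 / Y ^ 2 * (om1 κ (X + Y) / X) ≤ 16 * ε ^ 2 * (4 * L / ε) :=
        mul_le_mul h3 h4 (by positivity) (by positivity)
      have h6 : 16 * ε ^ 2 * (4 * L / ε) = 64 * (L * ε) := by field_simp; ring
      linarith
    · have h3 : om1 κ (X + Y) / X ≤ 4 * om1 κ (X + Y) := by
        rw [div_le_iff₀ hX0]
        linarith [mul_le_mul_of_nonneg_left h2 ho0]
      have h4 : ε ^ 2 / Y ^ 2 * (om1 κ (X + Y) / X) ≤ ε ^ 2 / Y ^ 2 * (4 * om1 κ (X + Y)) :=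
        mul_le_mul_of_nonneg_left h3 ha0.le
      refine h4.trans ?_
      rcases le_or_gt ε (Y ^ 2) with h5 | h5
      · have h6 : ε ^ 2 / Y ^ 2 ≤ ε := by
          rw [div_le_iff₀ (by positivity)]
          linarith [mul_le_mul_of_nonneg_left h5 hε.le, sq ε]
        have h7 : ε ^ 2 / Y ^ 2 * (4 * om1 κ (X + Y)) ≤ ε * (4 * (4 * L)) :=
          mul_le_mul h6 (by linarith) (by positivity) hε.le
        linarith
      · -- `Y ^ 2 < ε`
        have h6 : om1 κ (X + Y) = om1 κ (min (X + Y) 2) := by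
          rcases le_total (X + Y) 2 with h7 | h7
          · rw [min_eq_left h7]
          · rw [min_eq_right h7, om1_two h h7]
        have h7 := cube_le h (show 0 ≤ min (X + Y) 2 from le_min hS0.le (by norm_num))
        have h8 := Omc_ge h hl hX0 hY0
        rw [← h6] at h7
        set v := Real.sqrt (om1 κ (X + Y)) with hv
        have hv2 : v ^ 2 = om1 κ (X + Y) := Real.sq_sqrt ho0
        have hv0 : 0 ≤ v := Real.sqrt_nonneg _
        have h9 : v ^ 3 ≤ 8 * L * Omc κ l X Y :=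
          h7.trans (mul_le_mul_of_nonneg_left h8 (by positivity))
        rw [← hv2]
        rcases le_or_gt (128 * L * Y ^ 4) (ε ^ 2 * v) with h10 | h10
        · have h11 : ε ^ 2 / Y ^ 2 * (4 * v ^ 2) ≤
              1 / 4 * ((ε ^ 2 / Y ^ 2) ^ 2 * (Omc κ l X Y / Y ^ 2)) := by
            have e1 : 1 / 4 * ((ε ^ 2 / Y ^ 2) ^ 2 * (Omc κ l X Y / Y ^ 2)) =
                ε ^ 2 / Y ^ 2 * (ε ^ 2 * (8 * L * Omc κ l X Y) / (32 * L * Y ^ 4)) := by
              field_simp
              ring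
            rw [e1]
            apply mul_le_mul_of_nonneg_left _ ha0.le
            rw [le_div_iff₀ (by positivity)]
            calc 4 * v ^ 2 * (32 * L * Y ^ 4) = v ^ 2 * (128 * L * Y ^ 4) := by ring
              _ ≤ v ^ 2 * (ε ^ 2 * v) := mul_le_mul_of_nonneg_left h10 (by positivity)
              _ = ε ^ 2 * v ^ 3 := by ring
              _ ≤ ε ^ 2 * (8 * L * Omc κ l X Y) := mul_le_mul_of_nonneg_left h9 (by positivity)
          have : 0 ≤ 65536 * L ^ 2 * ε := by positivity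
          linarith
        · have h11 : v ≤ 128 * L * Y ^ 4 / ε ^ 2 := by
            rw [le_div_iff₀ (by positivity)]
            linarith
          have h12 : ε ^ 2 / Y ^ 2 * (4 * v ^ 2) ≤ 65536 * L ^ 2 * ε := by
            calc ε ^ 2 / Y ^ 2 * (4 * v ^ 2)
                ≤ ε ^ 2 / Y ^ 2 * (4 * (128 * L * Y ^ 4 / ε ^ 2) ^ 2) := by
                  apply mul_le_mul_of_nonneg_left _ ha0.le
                  have := pow_le_pow_left₀ hv0 h11 2
                  linarith
              _ = 65536 * L ^ 2 * ((Y ^ 2) ^ 3 / ε ^ 2) := by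
                  field_simp
                  ring
              _ ≤ 65536 * L ^ 2 * ε := by
                  apply mul_le_mul_of_nonneg_left _ (by positivity)
                  rw [div_le_iff₀ (by positivity)]
                  have := pow_le_pow_left₀ (by positivity) h5.le 3
                  calc (Y ^ 2) ^ 3 ≤ ε ^ 3 := this
                    _ = ε * ε ^ 2 := by ring
          linarith
  · -- hδ
    rw [div_le_iff₀ (by positivity)]
    linarith
  · -- dz
    calc δ0 * Y / (1 + Y) * (om1 κ (X + Y) / Y) = δ0 * (om1 κ (X + Y) / (1 + Y)) := by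
          field_simp
      _ ≤ δ0 * (4 * L) := by
          apply mul_le_mul_of_nonneg_left _ hδ0.le
          rw [div_le_iff₀ (by positivity)]
          linarith [mul_pos hL0 hY0]
      _ ≤ 65536 * L ^ 2 * δ0 := by
          linarith [mul_le_mul_of_nonneg_right hLL hδ0.le, mul_pos hL0 hδ0]
  · -- sl
    rw [hT2]
    have hd0 : 0 ≤ δ0 * Y / (1 + Y) := by positivity
    rcases le_or_gt (Y ^ 2 * C) ε with h1 | h1
    · have h2 : C * ε ≤ ε ^ 2 / Y ^ 2 := by
        rw [le_div_iff₀ (by positivity)]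
        linarith [mul_le_mul_of_nonneg_left h1 hε.le, sq ε]
      linarith
    · have h2 : C * ε ≤ δ0 * Y / (1 + Y) := by
        rw [lt_div_iff₀ (by positivity)] at hε2 hε3
        rcases le_total 1 Y with h3 | h3
        · rw [le_div_iff₀ (by positivity)]
          have h4 : 2 * (C * ε) ≤ δ0 := by linarith
          have h5 : C * ε * (1 + Y) ≤ C * ε * (2 * Y) :=
            mul_le_mul_of_nonneg_left (by linarith) (by positivity)
          have h6 : 2 * (C * ε) * Y ≤ δ0 * Y := mul_le_mul_of_nonneg_right h4 hY0.le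
          linarith
        · have h4 : 2 * (C * ε) ≤ δ0 * Y := by
            have h5 : (2 * (C * ε)) ^ 2 ≤ (δ0 * Y) ^ 2 := by
              have h6 : 4 * C ^ 3 * ε ^ 2 ≤ δ0 ^ 2 * ε := by
                linarith [mul_le_mul_of_nonneg_left hε3.le hε.le, sq ε,
                  congrArg (fun w => 4 * C ^ 3 * w) (sq ε)]
              have h7 : δ0 ^ 2 * ε ≤ δ0 ^ 2 * (Y ^ 2 * C) :=
                mul_le_mul_of_nonneg_left h1.le (by positivity)
              have h8 : C * (2 * (C * ε)) ^ 2 ≤ C * (δ0 * Y) ^ 2 := by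
                have e1 : C * (2 * (C * ε)) ^ 2 = 4 * C ^ 3 * ε ^ 2 := by ring
                have e2 : C * (δ0 * Y) ^ 2 = δ0 ^ 2 * (Y ^ 2 * C) := by ring
                rw [e1, e2]
                exact h6.trans h7
              exact le_of_mul_le_mul_left h8 hC
            exact le_of_sq_le_sq h5 (by positivity)
          rw [le_div_iff₀ (by positivity)]
          have h5 : C * ε * (1 + Y) ≤ C * ε * 2 :=
            mul_le_mul_of_nonneg_left (by linarith) (by positivity)
          linarith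
      linarith
  · -- A1
    refine hA1'.trans ?_
    linarith
  · -- A2
    rcases eq_or_ne (κ (X + Y)) 0 with h1 | h1
    · rw [h1]
      have : 0 ≤ 65536 * L ^ 2 * ε := by positivity
      simpa using this
    obtain ⟨h2, h3⟩ := hκS h1
    have h4 : Omc κ l X Y / om1 κ (X + Y) ≤ 2 := by
      rw [Omc_eq h hl hX0 hY0 h3.le]
      rcases eq_or_lt_of_le ho0 with h5 | h5
      · rw [← h5]; simp
      · rw [div_le_iff₀ h5]
        have := om_le h hS0.le
        linarith [mul_le_mul_of_nonneg_right h3.le ho0]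
    have h5 : 0 ≤ Omc κ l X Y / om1 κ (X + Y) := by positivity
    have h6 : n1B κ l ε X Y ≤ 8 * ε ^ 2 / ((Y ^ 2 + ε ^ 2) * Y) := by
      unfold n1B
      apply div_le_div_of_nonneg_right _ (by positivity)
      linarith [mul_le_mul_of_nonneg_left h4 (sq_nonneg ε)]
    rcases lt_or_ge X (1 / 4) with h7 | h7
    · have h8 : 1 / 4 ≤ Y := by linarith
      have h9 : n1B κ l ε X Y ≤ 512 := by
        refine h6.trans ?_
        rw [div_le_iff₀ (by positivity)]
        have h10 : 1 / 16 ≤ Y ^ 2 := by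
          have := mul_le_mul h8 h8 (by norm_num) hY0.le
          linarith [sq Y]
        have h11 : (1 / 16) * (1 / 4) ≤ (Y ^ 2 + ε ^ 2) * Y :=
          mul_le_mul (by linarith [sq_nonneg ε]) h8 (by norm_num) (by positivity)
        have h12 : ε ^ 2 ≤ 1 := by linarith
        linarith
      calc (1 - A) * (X * κ (X + Y) / (X + Y)) * n1B κ l ε X Y ≤ 4 * L * ε * 512 :=
            mul_le_mul hA1' h9 hn0 (by positivity)
        _ ≤ 65536 * L ^ 2 * ε := by linarith
    · have h8 : n1B κ l ε X Y ≤ 8 / ε := by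
        refine h6.trans ?_
        rw [div_le_div_iff₀ (by positivity) hε]
        have h9 : ε ^ 2 * ε ≤ (Y ^ 2 + ε ^ 2) * Y :=
          mul_le_mul (by linarith [sq_nonneg Y]) hYε hε.le (by positivity)
        linarith
      have h9 : (1 - A) * (X * κ (X + Y) / (X + Y)) ≤ 16 * ε ^ 2 * (2 * L) :=
        mul_le_mul (hX16 h7) (hρk.trans hk1) hρ0 (by positivity)
      calc (1 - A) * (X * κ (X + Y) / (X + Y)) * n1B κ l ε X Y
          ≤ 16 * ε ^ 2 * (2 * L) * (8 / ε) := mul_le_mul h9 h8 hn0 (by positivity)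
        _ = 256 * (L * ε) := by field_simp; ring
        _ ≤ 65536 * L ^ 2 * ε := by linarith
  · -- A3
    rw [hT2]
    rcases eq_or_ne (κ (X + Y)) 0 with h1 | h1
    · rw [h1]
      have : 0 ≤ 65536 * L ^ 2 * ε := by positivity
      simpa using this
    obtain ⟨h2, h3⟩ := hκS h1
    rcases lt_or_ge X (1 / 4) with h7 | h7
    · have h8 := hY16 (by linarith)
      have h9 : (1 - A) * (ε ^ 2 / Y ^ 2) ≤ 1 * (16 * ε ^ 2) :=
        mul_le_mul (by linarith) h8 ha0.le (by norm_num)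
      calc (1 - A) * (ε ^ 2 / Y ^ 2) * κ (X + Y) ≤ 1 * (16 * ε ^ 2) * (2 * L) :=
            mul_le_mul h9 hk1 hk0 (by positivity)
        _ = 32 * L * ε ^ 2 := by ring
        _ ≤ 32 * L * ε := mul_le_mul_of_nonneg_left hεε (by positivity)
        _ ≤ 65536 * L ^ 2 * ε := by linarith
    · have h9 : (1 - A) * (ε ^ 2 / Y ^ 2) ≤ (16 * ε ^ 2) * 1 :=
        mul_le_mul (hX16 h7) ha1 ha0.le (by positivity)
      calc (1 - A) * (ε ^ 2 / Y ^ 2) * κ (X + Y) ≤ (16 * ε ^ 2) * 1 * (2 * L) :=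
            mul_le_mul h9 hk1 hk0 (by positivity)
        _ = 32 * L * ε ^ 2 := by ring
        _ ≤ 32 * L * ε := mul_le_mul_of_nonneg_left hεε (by positivity)
        _ ≤ 65536 * L ^ 2 * ε := by linarith

end Pool.Agent.W154.BQ.Bndb
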